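import Pool.Agent.Lib.MP_b21f3c_al.Final

set_option autoImplicit false

namespace Pool.Agent.Results.MP_b21f3c_al.LargestFormation

open Subgroup Pool.Agent.Lib.MP_b21f3c_al
open scoped commutatorElement

/-- A class of finite groups. -/
abbrev GroupClass : Type 1 := (G : Type) → [Group G] → [Finite G] → Prop

/-- A formation: a class of finite groups closed under isomorphism, quotients, and such that
`G/N₁, G/N₂ ∈ F` implies `G/(N₁ ∩ N₂) ∈ F`. -/
structure IsFormation (F : GroupClass) : Prop where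
  iso : ∀ (G G' : Type) [Group G] [Finite G] [Group G'] [Finite G'],
    Nonempty (G ≃* G') → F G → F G'
  quotient : ∀ (G : Type) [Group G] [Finite G] (N : Subgroup G) [N.Normal], F G → F (G ⧸ N)
  inter : ∀ (G : Type) [Group G] [Finite G] (N₁ N₂ : Subgroup G) [N₁.Normal] [N₂.Normal],
    F (G ⧸ N₁) → F (G ⧸ N₂) → F (G ⧸ (N₁ ⊓ N₂))

/-- `G / Φ(G) ∈ F` implies `G ∈ F`. -/
def Saturated (F : GroupClass) : Prop :=
  ∀ (G : Type) [Group G] [Finite G], F (G ⧸ frattini G) → F G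

/-- closed under taking subgroups -/
def Hereditary (F : GroupClass) : Prop :=
  ∀ (G : Type) [Group G] [Finite G] (K : Subgroup G), F G → F K

/-- `F ⊆ H` -/
def ClassLE (F H : GroupClass) : Prop :=
  ∀ (G : Type) [Group G] [Finite G], F G → H G

/-- `F` is radical in `H`: `F ⊆ H`, and in every `G ∈ H` the product of two normal subgroups
which lie in `F` lies in `F`. -/
def RadicalIn (F H : GroupClass) : Prop :=
  ClassLE F H ∧ ∀ (G : Type) [Group G] [Finite G], H G → ∀ A B : Subgroup G,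
    A.Normal → B.Normal → F A → F B → F ↥(A ⊔ B)

/-- The finite supersoluble groups: there is a finite series of normal subgroups of `G` from `1`
to `G` with cyclic factors. -/
def U : GroupClass := fun G _ _ =>
  ∃ (n : ℕ) (s : Fin (n + 1) → Subgroup G) (_ : ∀ i, (s i).Normal),
    s 0 = ⊥ ∧ s (Fin.last n) = ⊤ ∧ ∀ i : Fin n, s i.castSucc ≤ s i.succ ∧
      IsCyclic (↥(s i.succ) ⧸ (s i.castSucc).subgroupOf (s i.succ))

/-- The set `M` of the problem: the saturated hereditary formations in which `U` is radical. -/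
def InM (H : GroupClass) : Prop :=
  IsFormation H ∧ Saturated H ∧ Hereditary H ∧ RadicalIn U H

/-- `K` is `p`-nilpotent: it has a normal subgroup of order prime to `p` and index a power
of `p`. -/
def PNilpotent (p : ℕ) (K : Type) [Group K] : Prop :=
  ∃ M : Subgroup K, M.Normal ∧ (Nat.card M).Coprime p ∧ ∃ n : ℕ, M.index = p ^ n

/-- The class of the finite groups `G` such that for all primes `p`, `q` with `q ∣ p - 1` there
is a `p`-nilpotent normal subgroup `K` of `G` such that the Sylow `q`-subgroups of `G / K` are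
abelian. -/
def Largest : GroupClass := fun G _ _ =>
  ∀ p q : ℕ, p.Prime → q.Prime → q ∣ p - 1 → ∃ (K : Subgroup G) (_ : K.Normal),
    PNilpotent p K ∧ ∀ Q : Sylow q (G ⧸ K), ∀ x ∈ Q, ∀ y ∈ Q, x * y = y * x

/-! ### Comparison with the library -/

theorem isCyclic_iff {G : Type} [Group G] (N M : Subgroup G) [N.Normal] :
    IsCyclic (↥M ⧸ N.subgroupOf M) ↔ ∃ g ∈ M, ∀ x ∈ M, ∃ k : ℤ, x * (g ^ k)⁻¹ ∈ N := by
  constructor
  · intro h
    obtain ⟨g', hg'⟩ := h.exists_generator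
    obtain ⟨⟨g, hg⟩, rfl⟩ := QuotientGroup.mk_surjective g'
    refine ⟨g, hg, fun x hx => ?_⟩
    obtain ⟨k, hk⟩ := hg' (QuotientGroup.mk ⟨x, hx⟩)
    refine ⟨k, ?_⟩
    have h1 : (QuotientGroup.mk ((⟨x, hx⟩ : M) * (⟨g, hg⟩ ^ k)⁻¹) : ↥M ⧸ N.subgroupOf M) = 1 := by
      rw [QuotientGroup.mk_mul, QuotientGroup.mk_inv, QuotientGroup.mk_zpow, ← hk]
      simp
    have h2 := (QuotientGroup.eq_one_iff _).1 h1
    rw [mem_subgroupOf] at h2
    simpa using h2
  · rintro ⟨g, hg, hgen⟩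
    refine ⟨⟨QuotientGroup.mk ⟨g, hg⟩, fun y => ?_⟩⟩
    obtain ⟨⟨x, hx⟩, rfl⟩ := QuotientGroup.mk_surjective y
    obtain ⟨k, hk⟩ := hgen x hx
    refine ⟨k, ?_⟩
    have h1 : (QuotientGroup.mk ((⟨x, hx⟩ : M) * (⟨g, hg⟩ ^ k)⁻¹) : ↥M ⧸ N.subgroupOf M) = 1 := by
      rw [QuotientGroup.eq_one_iff, mem_subgroupOf]
      simpa using hk
    rw [QuotientGroup.mk_mul, QuotientGroup.mk_inv, mul_inv_eq_one, QuotientGroup.mk_zpow] at h1
    exact h1.symm

theorem U_iff (G : Type) [Group G] [Finite G] : U G ↔ SS G := by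
  constructor
  · rintro ⟨n, s, hn, h0, h1, h2⟩
    refine ⟨n, s, h0, h1, hn, fun i => ⟨(h2 i).1, ?_⟩⟩
    have := hn i.castSucc
    exact (isCyclic_iff _ _).1 (h2 i).2
  · rintro ⟨n, s, h0, h1, hn, h2⟩
    refine ⟨n, s, hn, h0, h1, fun i => ⟨(h2 i).1, ?_⟩⟩
    have := hn i.castSucc
    exact (isCyclic_iff _ _).2 (h2 i).2

theorem loc_of {p q : ℕ} (hp : p.Prime) (hq : q.Prime) {G : Type} [Group G] [Finite G]
    (h : ∃ (K : Subgroup G) (_ : K.Normal),
      PNilpotent p K ∧ ∀ Q : Sylow q (G ⧸ K), ∀ x ∈ Q, ∀ y ∈ Q, x * y = y * x) :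
    Loc p q G := by
  have : Fact p.Prime := ⟨hp⟩
  have : Fact q.Prime := ⟨hq⟩
  obtain ⟨K, hK, ⟨M₀, hM₀, hcop, n, hn⟩, hQ⟩ := h
  have hmem : ∀ x : K, x ∈ M₀ ↔ (orderOf x).Coprime p := by
    intro x
    constructor
    · intro hx
      exact Nat.Coprime.coprime_dvd_left (Subgroup.orderOf_dvd_natCard M₀ hx) hcop
    · intro hx
      have h1 : orderOf (QuotientGroup.mk x : K ⧸ M₀) ∣ orderOf x :=
        orderOf_map_dvd (QuotientGroup.mk' M₀) x
      have h2 : orderOf (QuotientGroup.mk x : K ⧸ M₀) ∣ p ^ n := by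
        rw [← hn]
        exact orderOf_dvd_natCard _
      have h3 : orderOf (QuotientGroup.mk x : K ⧸ M₀) = 1 :=
        Nat.eq_one_of_dvd_coprimes (hx.pow_right n) h1 h2
      rw [orderOf_eq_one_iff] at h3
      exact (QuotientGroup.eq_one_iff x).1 h3
  have hmem' : ∀ x : G, x ∈ M₀.map K.subtype ↔ x ∈ K ∧ (orderOf x).Coprime p := by
    intro x
    constructor
    · rintro ⟨y, hy, rfl⟩
      refine ⟨y.2, ?_⟩
      have := (hmem y).1 hy
      simpa using this
    · rintro ⟨hx, hc⟩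
      refine ⟨⟨x, hx⟩, (hmem _).2 ?_, rfl⟩
      simpa using hc
  refine ⟨K, M₀.map K.subtype, hK, ?_, ?_, ?_, ?_⟩
  · constructor
    intro x hx g
    obtain ⟨h1, h2⟩ := (hmem' x).1 hx
    refine (hmem' _).2 ⟨hK.conj_mem x h1 g, ?_⟩
    have h3 : orderOf (g * x * g⁻¹) = orderOf x := by
      have := MulEquiv.orderOf_eq (MulAut.conj g) x
      simpa using this
    rw [h3]
    exact h2
  · intro x hx hxp
    obtain ⟨-, h2⟩ := (hmem' x).1 hx
    have h3 : orderOf x = 1 :=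
      Nat.eq_one_of_dvd_coprimes h2 dvd_rfl (orderOf_dvd_of_pow_eq_one hxp)
    exact orderOf_eq_one_iff.1 h3
  · intro x hx
    refine ⟨n, ⟨⟨x, hx⟩ ^ p ^ n, ?_, rfl⟩⟩
    have := M₀.pow_index_mem (⟨x, hx⟩ : K)
    rw [hn] at this
    exact this
  · intro X hX
    rw [Subgroup.commutator_le]
    intro a ha b hb
    have hXq : IsPGroup q (X.map (QuotientGroup.mk' K)) := by
      rintro ⟨_, x, hx, rfl⟩
      obtain ⟨m, hm⟩ := hX x hx
      refine ⟨m, Subtype.ext ?_⟩
      change (QuotientGroup.mk' K x) ^ q ^ m = 1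
      rw [← map_pow]
      exact (QuotientGroup.eq_one_iff _).2 hm
    obtain ⟨Q, hXQ⟩ := hXq.exists_le_sylow
    have h1 := hQ Q _ (hXQ ⟨a, ha, rfl⟩) _ (hXQ ⟨b, hb, rfl⟩)
    rw [← QuotientGroup.eq_one_iff]
    have h2 : (QuotientGroup.mk' K) ⁅a, b⁆ = 1 := by
      rw [map_commutatorElement, commutatorElement_eq_one_iff_mul_comm]
      exact h1
    exact h2

theorem of_loc {p q : ℕ} (hp : p.Prime) {G : Type} [Group G] [Finite G]
    (h : Loc p q G) : ∃ (K : Subgroup G) (_ : K.Normal),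
      PNilpotent p K ∧ ∀ Q : Sylow q (G ⧸ K), ∀ x ∈ Q, ∀ y ∈ Q, x * y = y * x := by
  have : Fact p.Prime := ⟨hp⟩
  obtain ⟨K, M, hK, hM, h1, h2, h3⟩ := h
  refine ⟨K, hK, ⟨M.subgroupOf K, inferInstance, ?_, ?_⟩, ?_⟩
  · rw [Nat.coprime_comm, hp.coprime_iff_not_dvd]
    intro hd
    obtain ⟨x, hx⟩ := exists_prime_orderOf_dvd_card' p hd
    have hx1 : ((x : K) : G) ^ p = 1 := by
      have : x ^ p = 1 := by rw [← hx]; exact pow_orderOf_eq_one x
      have := congrArg (fun y : M.subgroupOf K => ((y : K) : G)) this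
      simpa using this
    have hx2 : ((x : K) : G) = 1 := h1 _ (mem_subgroupOf.1 x.2) hx1
    have hx3 : x = 1 := Subtype.ext (Subtype.ext hx2)
    rw [hx3, orderOf_one] at hx
    exact hp.one_lt.ne hx
  · have hpg : IsPGroup p (K ⧸ M.subgroupOf K) := by
      intro y
      obtain ⟨x, rfl⟩ := QuotientGroup.mk_surjective y
      obtain ⟨n, hn⟩ := h2 x x.2
      refine ⟨n, ?_⟩
      rw [← QuotientGroup.mk_pow, QuotientGroup.eq_one_iff, mem_subgroupOf]
      simpa using hn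
    exact (IsPGroup.iff_card).1 hpg
  · intro Q x hx y hy
    obtain ⟨a, rfl⟩ := QuotientGroup.mk_surjective x
    obtain ⟨b, rfl⟩ := QuotientGroup.mk_surjective y
    have h4 : ⁅(Q : Subgroup (G ⧸ K)).comap (QuotientGroup.mk' K),
        (Q : Subgroup (G ⧸ K)).comap (QuotientGroup.mk' K)⁆ ≤ K := by
      apply h3
      intro z hz
      obtain ⟨n, hn⟩ := Q.isPGroup' ⟨_, hz⟩
      refine ⟨n, ?_⟩
      rw [← QuotientGroup.eq_one_iff]
      have := congrArg Subtype.val hn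
      simpa using this
    have h5 : ⁅a, b⁆ ∈ K := h4 (Subgroup.commutator_mem_commutator hx hy)
    have h6 : (QuotientGroup.mk' K) ⁅a, b⁆ = 1 := (QuotientGroup.eq_one_iff _).2 h5
    rw [map_commutatorElement, commutatorElement_eq_one_iff_mul_comm] at h6
    exact h6

theorem largest_iff (G : Type) [Group G] [Finite G] : Largest G ↔ H0 G :=
  ⟨fun h p q hp hq hqp => loc_of hp hq (h p q hp hq hqp),
    fun h p q hp hq hqp => of_loc hp (h p q hp hq hqp)⟩

theorem cl_of_inM {H : GroupClass} (h : InM H) :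
    Cl (fun G _ => ∃ _ : Finite G, H G) := by
  obtain ⟨hF, hS, hH, hU, hR⟩ := h
  constructor
  · rintro G G' _ _ hfin ⟨e⟩ ⟨_, hG⟩
    have : Finite G' := Finite.of_equiv G e.toEquiv
    exact ⟨inferInstance, hF.iso G G' ⟨e⟩ hG⟩
  · rintro G _ _ N _ ⟨_, hG⟩
    exact ⟨inferInstance, hF.quotient G N hG⟩
  · rintro G _ _ N₁ N₂ _ _ hbot ⟨_, h1⟩ ⟨_, h2⟩
    refine ⟨inferInstance, ?_⟩
    have h3 := hF.inter G N₁ N₂ h1 h2
    exact hF.iso _ _ ⟨(QuotientGroup.quotientMulEquivOfEq hbot).trans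
      QuotientGroup.quotientBot⟩ h3
  · rintro G _ _ K ⟨_, hG⟩
    exact ⟨inferInstance, hH G K hG⟩
  · rintro G _ _ ⟨_, hG⟩
    exact ⟨inferInstance, hS G hG⟩
  · intro G _ _ hG
    exact ⟨inferInstance, hU G ((U_iff G).2 hG)⟩
  · rintro G _ _ ⟨_, hG⟩ A B hA hB hSA hSB
    exact (U_iff _).1 (hR G hG A B hA hB ((U_iff _).2 hSA) ((U_iff _).2 hSB))

theorem largest_inM : InM Largest := by
  have hcl := cl_H0
  refine ⟨⟨?_, ?_, ?_⟩, ?_, ?_, ?_, ?_⟩
  · intro G G' _ _ _ _ he hG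
    exact (largest_iff G').2 (hcl.iso G G' inferInstance he ((largest_iff G).1 hG))
  · intro G _ _ N _ hG
    exact (largest_iff _).2 (hcl.quot G N ((largest_iff G).1 hG))
  · intro G _ _ N₁ N₂ _ _ h1 h2
    refine (largest_iff _).2 fun p q hp hq hqp => ?_
    refine Loc.subdirect
      (QuotientGroup.map (N₁ ⊓ N₂) N₁ (MonoidHom.id G) inf_le_left)
      (QuotientGroup.map (N₁ ⊓ N₂) N₂ (MonoidHom.id G) inf_le_right) ?_
      ((largest_iff _).1 h1 p q hp hq hqp) ((largest_iff _).1 h2 p q hp hq hqp)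
    rw [eq_bot_iff]
    intro x hx
    obtain ⟨g, rfl⟩ := QuotientGroup.mk_surjective x
    have hx1 : (QuotientGroup.mk g : G ⧸ N₁) = 1 := hx.1
    have hx2 : (QuotientGroup.mk g : G ⧸ N₂) = 1 := hx.2
    rw [mem_bot, QuotientGroup.eq_one_iff]
    exact ⟨(QuotientGroup.eq_one_iff g).1 hx1, (QuotientGroup.eq_one_iff g).1 hx2⟩
  · intro G _ _ hG
    exact (largest_iff _).2 (hcl.sat G ((largest_iff _).1 hG))
  · intro G _ _ K hG
    exact (largest_iff _).2 (hcl.her G K ((largest_iff _).1 hG))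
  · intro G _ _ hG
    exact (largest_iff _).2 (hcl.ss G ((U_iff G).1 hG))
  · intro G _ _ hG A B hA hB hUA hUB
    exact (U_iff _).2 (hcl.rad G ((largest_iff _).1 hG) A B hA hB ((U_iff _).1 hUA)
      ((U_iff _).1 hUB))

/-- The set `M` of the problem has a largest element, namely the class `Largest`; it consists
exactly of the saturated hereditary formations between `U` and `Largest`. -/
theorem result :
    InM Largest ∧ ∀ H : GroupClass, InM H ↔
      IsFormation H ∧ Saturated H ∧ Hereditary H ∧ ClassLE U H ∧ ClassLE H Largest := by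
  refine ⟨largest_inM, fun H => ⟨fun h => ⟨h.1, h.2.1, h.2.2.1, h.2.2.2.1, ?_⟩, ?_⟩⟩
  · intro G _ _ hG
    exact (largest_iff G).2 ((cl_of_inM h).le_H0 ⟨inferInstance, hG⟩)
  · rintro ⟨h1, h2, h3, h4, h5⟩
    exact ⟨h1, h2, h3, h4, fun G _ _ hG => largest_inM.2.2.2.2 G (h5 G hG)⟩

end Pool.Agent.Results.MP_b21f3c_al.LargestFormation
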